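import Pool.Agent.Helper39.Rot.Assembly
import Pool.Agent.Helper73.RotI
import Pool.Agent.Helper4.RotY
import Pool.Agent.Helper5.RotC
import Pool.Agent.Helper40.RotB

set_option autoImplicit false

open Filter Topology

namespace Pool.Agent.Results.MP_707bda_al.IrrationalDistorted

/-- `F : ℝ → ℝ` is real-analytic with `F' > 0` and `F(x+1) = F(x) + 1`. -/
def AnalyticLift (F : ℝ → ℝ) : Prop :=
  (∀ x : ℝ, AnalyticAt ℝ F x) ∧ (∀ x : ℝ, 0 < deriv F x) ∧ ∀ x : ℝ, F (x + 1) = F x + 1

/-- The self-map `g` of the circle `ℝ/ℤ` lifts to such an `F`. -/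
def Analytic (g : AddCircle (1 : ℝ) → AddCircle (1 : ℝ)) : Prop :=
  ∃ F : ℝ → ℝ, AnalyticLift F ∧ ∀ x : ℝ, g (x : AddCircle (1 : ℝ)) = (F x : AddCircle (1 : ℝ))

lemma AnalyticLift.comp {F G : ℝ → ℝ} (hF : AnalyticLift F) (hG : AnalyticLift G) :
    AnalyticLift (F ∘ G) := by
  refine ⟨fun x => (hF.1 (G x)).comp (hG.1 x), fun x => ?_, fun x => ?_⟩
  · rw [deriv_comp x (hF.1 (G x)).differentiableAt (hG.1 x).differentiableAt]
    exact mul_pos (hF.2.1 _) (hG.2.1 _)
  · simp only [Function.comp_apply]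
    rw [hG.2.2, hF.2.2]

lemma AnalyticLift.add (s : ℝ) : AnalyticLift (fun x => x + s) := by
  refine ⟨fun x => analyticAt_id.add analyticAt_const, fun x => ?_, fun x => by ring⟩
  simp

lemma Analytic.comp {g h : AddCircle (1 : ℝ) → AddCircle (1 : ℝ)} (hg : Analytic g)
    (hh : Analytic h) : Analytic (g ∘ h) := by
  obtain ⟨F, hF, hF'⟩ := hg
  obtain ⟨G, hG, hG'⟩ := hh
  exact ⟨F ∘ G, hF.comp hG, fun x => by simp only [Function.comp_apply]; rw [hG', hF']⟩

/-- The group `Diff_+^ω(S¹)` of the orientation-preserving real-analytic diffeomorphisms of the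
circle `ℝ/ℤ`, under composition: the homeomorphisms `g` such that both `g` and `g⁻¹` have a lift
`F` to the line which is real-analytic with `F' > 0` and `F(x+1) = F(x)+1`. -/
def DiffOmega : Subgroup (AddCircle (1 : ℝ) ≃ₜ AddCircle (1 : ℝ)) where
  carrier := {g | Analytic g ∧ Analytic g.symm}
  mul_mem' {a b} ha hb := ⟨ha.1.comp hb.1, hb.2.comp ha.2⟩
  one_mem' := ⟨⟨fun x => x + 0, AnalyticLift.add 0, fun x => by simp⟩,
    ⟨fun x => x + 0, AnalyticLift.add 0, fun x => by simp; rfl⟩⟩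
  inv_mem' {a} ha := ⟨ha.2, ha.1⟩

/-- The rotation `R_α : x ↦ x + α mod 1`, as an element of `Diff_+^ω(S¹)`. -/
noncomputable def rot (α : ℝ) : DiffOmega :=
  ⟨Homeomorph.addRight (α : AddCircle (1 : ℝ)),
    ⟨fun x => x + α, AnalyticLift.add α, fun x => by simp⟩,
    ⟨fun x => x + (-α), AnalyticLift.add (-α), fun x => by simp [Homeomorph.addRight_symm]⟩⟩

/-- Word length of `h` with respect to `S ∪ S⁻¹`. -/
noncomputable def wordLength {H : Type*} [Group H] (S : Set H) (h : H) : ℕ :=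
  sInf {n | ∃ l : List H, l.length = n ∧ (∀ x ∈ l, x ∈ S ∨ x⁻¹ ∈ S) ∧ l.prod = h}

/-- `g` is distorted in `Γ`: there are a subgroup `H` containing `g` and a finite generating set
`S` of `H` such that `|g^n|_S / n → 0`. -/
def Distorted {Γ : Type*} [Group Γ] (g : Γ) : Prop :=
  ∃ (H : Subgroup Γ) (hg : g ∈ H) (S : Finset H), Subgroup.closure (S : Set H) = ⊤ ∧
    Tendsto (fun n : ℕ => (wordLength (S : Set H) ((⟨g, hg⟩ : H) ^ n) : ℝ) / n) atTop (𝓝 0)

lemma wordLength_le {H : Type*} [Group H] (S : Set H) (l : List H)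
    (hl : ∀ x ∈ l, x ∈ S ∨ x⁻¹ ∈ S) : wordLength S l.prod ≤ l.length :=
  Nat.sInf_le ⟨l, rfl, hl, rfl⟩

lemma distorted_of {Γ : Type*} [Group Γ] (g : Γ) (S0 : Finset Γ) (hg : g ∈ S0)
    (h : ∀ ε : ℝ, 0 < ε → ∃ n : ℕ, 0 < n ∧ ∃ l : List Γ, (∀ x ∈ l, x ∈ S0 ∨ x⁻¹ ∈ S0) ∧
      (l.length : ℝ) ≤ ε * n ∧ l.prod = g ^ n) : Distorted g := by
  classical
  set H : Subgroup Γ := Subgroup.closure (S0 : Set Γ) with hH
  have hS0 : ∀ x ∈ S0, x ∈ H := fun x hx => Subgroup.subset_closure hx
  set S : Finset H := S0.subtype (fun x => x ∈ H) with hS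
  have hSS : (S : Set H) = ((↑) : H → Γ) ⁻¹' (S0 : Set Γ) := by
    ext x
    simp [hS]
  set G : H := ⟨g, hS0 g hg⟩ with hG
  have hmem : ∀ x : H, (x : Γ) ∈ S0 → x ∈ (S : Set H) := by
    intro x hx
    rw [hSS]; exact hx
  have hne : ∀ n : ℕ, ∃ l : List H, l.length = wordLength (S : Set H) (G ^ n) ∧
      (∀ x ∈ l, x ∈ (S : Set H) ∨ x⁻¹ ∈ (S : Set H)) ∧ l.prod = G ^ n := by
    intro n
    have : ({m | ∃ l : List H, l.length = m ∧ (∀ x ∈ l, x ∈ (S : Set H) ∨ x⁻¹ ∈ (S : Set H)) ∧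
        l.prod = G ^ n}).Nonempty := by
      refine ⟨n, List.replicate n G, by simp, fun x hx => ?_, by simp⟩
      left
      rw [List.eq_of_mem_replicate hx]
      exact hmem _ hg
    exact Nat.sInf_mem this
  have hsub : Subadditive (fun n : ℕ => (wordLength (S : Set H) (G ^ n) : ℝ)) := by
    intro m n
    obtain ⟨l, h1, h2, h3⟩ := hne m
    obtain ⟨k, h4, h5, h6⟩ := hne n
    have h7 : wordLength (S : Set H) (l ++ k).prod ≤ (l ++ k).length := by
      apply wordLength_le
      intro x hx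
      rcases List.mem_append.1 hx with hx | hx
      · exact h2 x hx
      · exact h5 x hx
    rw [List.prod_append, h3, h6, ← pow_add, List.length_append, h1, h4] at h7
    change ((wordLength (S : Set H) (G ^ (m + n)) : ℕ) : ℝ) ≤
      ((wordLength (S : Set H) (G ^ m) : ℕ) : ℝ) + ((wordLength (S : Set H) (G ^ n) : ℕ) : ℝ)
    exact_mod_cast h7
  have hbdd : BddBelow (Set.range fun n : ℕ => (wordLength (S : Set H) (G ^ n) : ℝ) / n) := by
    refine ⟨0, ?_⟩
    rintro _ ⟨n, rfl⟩
    positivity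
  refine ⟨H, hS0 g hg, S, ?_, ?_⟩
  · rw [hSS]
    exact Subgroup.closure_closure_coe_preimage
  · have ht := hsub.tendsto_lim hbdd
    have hlim : hsub.lim = 0 := by
      apply le_antisymm
      · apply le_of_forall_pos_le_add
        intro ε hε
        obtain ⟨n, hn, l, h1, h2, h3⟩ := h ε hε
        have hlH : ∀ x ∈ l, x ∈ H := by
          intro x hx
          rcases h1 x hx with h | h
          · exact hS0 x h
          · have := H.inv_mem (hS0 _ h)
            simpa using this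
        lift l to List H using hlH
        have h4 : wordLength (S : Set H) l.prod ≤ l.length := by
          apply wordLength_le
          intro x hx
          rcases h1 x (List.mem_map_of_mem hx) with h | h
          · left; exact hmem x h
          · right; exact hmem _ (by simpa using h)
        have h5 : l.prod = G ^ n := by
          apply Subtype.ext
          rw [← Subgroup.coe_subtype, map_list_prod]
          simpa [hG] using h3
        rw [h5] at h4
        have h6 := hsub.lim_le_div hbdd (Nat.pos_iff_ne_zero.1 hn)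
        refine h6.trans ?_
        rw [zero_add, div_le_iff₀ (by exact_mod_cast hn)]
        have h7 : ((wordLength (S : Set H) (G ^ n) : ℕ) : ℝ) ≤ (l.length : ℝ) := by exact_mod_cast h4
        rw [List.length_map] at h2
        exact h7.trans h2
      · exact ge_of_tendsto' ht (fun n => by positivity)
    rw [hlim] at ht
    exact ht

lemma exists_circle (g : Equiv.Perm ℝ) (h1 : AnalyticLift g)
    (h2 : AnalyticLift (g⁻¹ : Equiv.Perm ℝ)) :
    ∃ c : DiffOmega, ∀ x : ℝ, (c : AddCircle (1 : ℝ) ≃ₜ AddCircle (1 : ℝ)) (x : AddCircle (1 : ℝ)) =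
      (g x : AddCircle (1 : ℝ)) := by
  have key : ∀ k : Equiv.Perm ℝ, AnalyticLift k → ∃ φ : AddCircle (1 : ℝ) → AddCircle (1 : ℝ),
      Continuous φ ∧ ∀ x : ℝ, φ (x : AddCircle (1 : ℝ)) = (k x : AddCircle (1 : ℝ)) := by
    intro k hk
    have hper : Function.Periodic (fun x : ℝ => (k x : AddCircle (1 : ℝ))) 1 := by
      intro x
      simp only [hk.2.2]
      simp
    refine ⟨hper.lift, ?_, fun x => hper.lift_coe x⟩
    have hcont : Continuous (fun x : ℝ => (k x : AddCircle (1 : ℝ))) := by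
      have h3 : Continuous k := continuous_iff_continuousAt.2 fun x => (hk.1 x).continuousAt
      exact (AddCircle.continuous_mk' (1 : ℝ)).comp h3
    exact hcont.quotient_lift _
  obtain ⟨φ, hφ, hφ'⟩ := key g h1
  obtain ⟨ψ, hψ, hψ'⟩ := key g⁻¹ h2
  let c : AddCircle (1 : ℝ) ≃ₜ AddCircle (1 : ℝ) :=
    { toFun := φ
      invFun := ψ
      left_inv := fun y => by
        obtain ⟨x, rfl⟩ := QuotientAddGroup.mk_surjective y
        rw [hφ', hψ']; simp
      right_inv := fun y => by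
        obtain ⟨x, rfl⟩ := QuotientAddGroup.mk_surjective y
        rw [hψ', hφ']; simp
      continuous_toFun := hφ
      continuous_invFun := hψ }
  exact ⟨⟨c, ⟨g, h1, hφ'⟩, ⟨_, h2, hψ'⟩⟩, hφ'⟩

lemma ext_circle {c d : DiffOmega} (h : ∀ x : ℝ,
    (c : AddCircle (1 : ℝ) ≃ₜ AddCircle (1 : ℝ)) (x : AddCircle (1 : ℝ)) =
    (d : AddCircle (1 : ℝ) ≃ₜ AddCircle (1 : ℝ)) (x : AddCircle (1 : ℝ))) : c = d := by
  apply Subtype.ext
  ext y
  obtain ⟨x, rfl⟩ := QuotientAddGroup.mk_surjective y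
  exact h x

lemma rot_apply (α : ℝ) (x : ℝ) :
    (rot α : AddCircle (1 : ℝ) ≃ₜ AddCircle (1 : ℝ)) (x : AddCircle (1 : ℝ)) =
      ((x + α : ℝ) : AddCircle (1 : ℝ)) := by
  simp [rot]

lemma rot_pow (α : ℝ) (n : ℕ) (x : ℝ) :
    ((rot α ^ n : DiffOmega) : AddCircle (1 : ℝ) ≃ₜ AddCircle (1 : ℝ)) (x : AddCircle (1 : ℝ)) =
      ((x + n * α : ℝ) : AddCircle (1 : ℝ)) := by
  induction n generalizing x with
  | zero => simp
  | succ n ih =>
    rw [pow_succ, Subgroup.coe_mul, Homeomorph.mul_apply, rot_apply, ih]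
    congr 1
    push_cast; ring

/-- Every irrational rotation is a distorted element of the group of orientation-preserving
real-analytic diffeomorphisms of the circle. -/
theorem result : ∀ α : ℝ, Irrational α → Distorted (rot α) := by
  intro α _
  classical
  have hcl : Pool.Agent.Helper39.Rot.Closing := Pool.Agent.Helper40.RotB.closing
  have hY : Pool.Agent.Helper39.Rot.YhatSpec := Pool.Agent.Helper39.Rot.Yhat_spec
  have hC : Pool.Agent.Helper39.Rot.InfComp := Pool.Agent.Helper5.RotC.inf_comp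
  have hI : Pool.Agent.Helper39.Rot.InverseAnalytic := Pool.Agent.Helper73.RotI.inverse_analytic
  choose f hf1 hf2 hf3 using fun i => Pool.Agent.Helper39.Rot.exists_f hcl α hY hC hI i
  let SP : Finset (Equiv.Perm ℝ) := (Finset.range 8).image f ∪ (Finset.range 8).image (fun i => (f i)⁻¹) ∪
    {Pool.Agent.Helper39.Rot.T (1 / 3), (Pool.Agent.Helper39.Rot.T (1 / 3))⁻¹}
  have hSPinv : ∀ x ∈ SP, x⁻¹ ∈ SP := by
    intro x hx
    simp only [SP, Finset.mem_union, Finset.mem_image, Finset.mem_range, Finset.mem_insert,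
      Finset.mem_singleton] at hx ⊢
    rcases hx with (⟨i, hi, rfl⟩ | ⟨i, hi, rfl⟩) | (rfl | rfl)
    · left; right; exact ⟨i, hi, rfl⟩
    · left; left; exact ⟨i, hi, (inv_inv _).symm⟩
    · right; right; rfl
    · right; left; exact inv_inv _
  have hT0 : ∀ s : ℝ, AnalyticLift (Pool.Agent.Helper39.Rot.T s) := fun s => AnalyticLift.add s
  have hprop : ∀ g ∈ SP, AnalyticLift g := by
    intro g hg
    simp only [SP, Finset.mem_union, Finset.mem_image, Finset.mem_range, Finset.mem_insert,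
      Finset.mem_singleton] at hg
    rcases hg with (⟨i, hi, rfl⟩ | ⟨i, hi, rfl⟩) | (rfl | rfl)
    · exact hf1 i
    · exact hf2 i
    · exact hT0 _
    · rw [Pool.Agent.Helper39.Rot.T_inv]; exact hT0 _
  have hex : ∀ g : Equiv.Perm ℝ, ∃ c : DiffOmega, g ∈ SP → ∀ x : ℝ,
      (c : AddCircle (1 : ℝ) ≃ₜ AddCircle (1 : ℝ)) (x : AddCircle (1 : ℝ)) =
        (g x : AddCircle (1 : ℝ)) := by
    intro g
    by_cases hg : g ∈ SP
    · obtain ⟨c, hc⟩ := exists_circle g (hprop g hg) (hprop _ (hSPinv g hg))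
      exact ⟨c, fun _ => hc⟩
    · exact ⟨1, fun h => absurd h hg⟩
  choose c hc using hex
  apply distorted_of (rot α) (insert (rot α) (SP.image c)) (Finset.mem_insert_self _ _)
  intro ε hε
  obtain ⟨n, L, p, hn, hL, l, hl1, hl2, hl3⟩ := Pool.Agent.Helper39.Rot.final_word hcl α f
    (SP : Set (Equiv.Perm ℝ)) (fun x hx => hSPinv x hx)
    (fun i hi => by
      simp only [SP, Finset.coe_union, Set.mem_union, Finset.mem_coe, Finset.mem_image, Finset.mem_range]
      left; left; exact ⟨i, hi, rfl⟩)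
    (by simp [SP])
    (fun i _ K => hf3 i K) ε hε
  refine ⟨n, hn, l.map c, ?_, ?_, ?_⟩
  · intro x hx
    obtain ⟨g, hg, rfl⟩ := List.mem_map.1 hx
    left
    exact Finset.mem_insert_of_mem (Finset.mem_image_of_mem c (hl1 g hg))
  · rw [List.length_map]
    exact le_trans (by exact_mod_cast hl2) hL
  · have hw : ∀ (k : List (Equiv.Perm ℝ)), (∀ g ∈ k, g ∈ SP) → ∀ x : ℝ,
        ((k.map c).prod : AddCircle (1 : ℝ) ≃ₜ AddCircle (1 : ℝ)) (x : AddCircle (1 : ℝ)) =
          (k.prod x : AddCircle (1 : ℝ)) := by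
      intro k
      induction k with
      | nil => intro _ x; simp
      | cons g k ih =>
        intro hk x
        rw [List.map_cons, List.prod_cons, List.prod_cons, Subgroup.coe_mul, Homeomorph.mul_apply,
          ih (fun y hy => hk y (List.mem_cons_of_mem _ hy)) x, hc g (hk g List.mem_cons_self),
          Equiv.Perm.mul_apply]
    apply ext_circle
    intro x
    rw [hw l hl1 x, hl3, rot_pow, Pool.Agent.Helper39.Rot.T_apply]
    rw [show x + (n * α - p) = x + n * α - p by ring, AddCircle.coe_sub]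
    have : ((p : ℝ) : AddCircle (1 : ℝ)) = 0 := by
      rw [AddCircle.coe_eq_zero_iff]
      exact ⟨p, by simp⟩
    rw [this, sub_zero]

end Pool.Agent.Results.MP_707bda_al.IrrationalDistorted
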